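import Pool.Agent.helper70.FI3.SpecN3

/-!
# Project fi3 (MP_baa4d7_al), row fi3:N3CS: the number of the characters over a character of the centre
-/

set_option autoImplicit false

namespace Pool.Agent.FI3

open Pool.Agent.helper58.DC Pool.Agent.DI Pool.Agent.GR Pool.Agent.OB Pool.Agent.DR Pool.Agent.FI

theorem N3CS_split {α : Type} [DecidableEq α] (A B C : Finset α) (hAB : A ⊆ B) (hBC : B ⊆ C) (f : α → ℂ)
    (a b c : ℂ) (hA : ∀ u ∈ A, f u = a) (hB : ∀ u ∈ B, u ∉ A → f u = b) (hC : ∀ u ∈ C, u ∉ B → f u = c) :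
    ∑ u ∈ C, f u = A.card * a + ((B.card - A.card : ℕ) : ℂ) * b + ((C.card - B.card : ℕ) : ℂ) * c := by
  have e1 : ∑ u ∈ C, f u = ∑ u ∈ C \ B, f u + ∑ u ∈ B, f u := (Finset.sum_sdiff hBC).symm
  have e2 : ∑ u ∈ B, f u = ∑ u ∈ B \ A, f u + ∑ u ∈ A, f u := (Finset.sum_sdiff hAB).symm
  have e3 : ∑ u ∈ C \ B, f u = ((C.card - B.card : ℕ) : ℂ) * c := by
    rw [Finset.sum_congr rfl fun u hu => hC u (Finset.mem_sdiff.1 hu).1 (Finset.mem_sdiff.1 hu).2,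
      Finset.sum_const, nsmul_eq_mul, Finset.card_sdiff_of_subset hBC]
  have e4 : ∑ u ∈ B \ A, f u = ((B.card - A.card : ℕ) : ℂ) * b := by
    rw [Finset.sum_congr rfl fun u hu => hB u (Finset.mem_sdiff.1 hu).1 (Finset.mem_sdiff.1 hu).2,
      Finset.sum_const, nsmul_eq_mul, Finset.card_sdiff_of_subset hAB]
  have e5 : ∑ u ∈ A, f u = (A.card : ℂ) * a := by
    rw [Finset.sum_congr rfl hA, Finset.sum_const, nsmul_eq_mul]
  rw [e1, e2, e3, e4, e5]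
  ring

theorem N3CS_fin {G : Type} [Group G] [Finite G] (H : Subgroup G) :
    ∃ S : Finset G, (∀ x, x ∈ S ↔ x ∈ H) ∧ S.card = Nat.card H := by
  classical
  have : Fintype G := Fintype.ofFinite G
  refine ⟨Finset.univ.filter fun x => x ∈ H, fun x => by simp, ?_⟩
  rw [Nat.card_eq_fintype_card, Fintype.card_subtype]

theorem N3CS (hQMX : QMXS_stmt) (hTRS : TRSS_stmt) (hNWT : NWT3_stmt) (hQIR : QIR_stmt) (hEXB : EXB_stmt)
    (hB2 : B2_stmt) : N3CS_stmt := by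
  classical
  intro p M hM G _ _ D x θ χ hL hgood P hP htr
  have hYD : YY M D θ ≤ D := inf_le_left
  have hPD : P ≤ D := hP.trans hYD
  have hDL : D ≤ cz P := Q1_D_le hL.rt hPD
  have hcc : cz P ⊓ cz D = cz D := inf_eq_right.2 (Subgroup.centralizer_le hPD)
  obtain ⟨hZY, hwY, hCz, hDY⟩ := hNWT p M hM G D x θ χ hL hgood P hP
  obtain ⟨ψ₀, hψ₀, hSB⟩ := hEXB p M hM G (cz P) D hL.rt.dfa.pgrp hDL θ (by rw [hcc]; exact hL.rt.th)
  have hne : (Bl M (cz P) θ).Nonempty := ⟨ψ₀, hψ₀, SB.symm hSB⟩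
  obtain ⟨lL, hlL, hsum⟩ := hQIR p M hM G (cz P) (Bl M (cz P) θ) (Q1_BC M (cz P) 1 θ).1 hne
  refine ⟨lL, hlL, hsum, fun Z hZ l => ?_⟩
  have hX : (XL M (cz P) θ Z l).Finite := (hB2 G (cz P)).1.subset fun ψ h => h.1.1
  obtain ⟨A, hA, hAc⟩ := N3CS_fin (Zc D (cz P))
  obtain ⟨B, hB, hBc⟩ := N3CS_fin (YY M D θ)
  obtain ⟨C, hC, hCc⟩ := N3CS_fin D
  have hZ0 : (Nat.card Z : ℂ) ≠ 0 := Nat.cast_ne_zero.2 Nat.card_pos.ne'
  have hI0 : iI M D θ ≠ 0 := by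
    unfold iI Subgroup.relIndex
    exact Subgroup.index_ne_zero_of_finite
  have hI0' : (iI M D θ : ℂ) ≠ 0 := Nat.cast_ne_zero.2 hI0
  -- the sum over the characters
  have h1 : ((XL M (cz P) θ Z l).ncard : ℂ) =
      ∑ u ∈ C, ((∑ᶠ ψ ∈ Bl M (Cz (cz P) u) θ, EE p (Cz (cz P) u) ψ ψ) / (Nat.card Z : ℂ)) /
        (wt M D (cz P) θ u : ℂ) := by
    have e0 : ∀ F : G → ℂ, ∑ᶠ u ∈ (D : Set G), F u = ∑ u ∈ C, F u := by
      intro F
      rw [← finsum_mem_coe_finset]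
      have e : (C : Set G) = (D : Set G) := Set.ext fun u => Finset.mem_coe.trans (hC u)
      rw [e]
    have e1 : ((XL M (cz P) θ Z l).ncard : ℂ) = ∑ χ' ∈ hX.toFinset, (1 : ℂ) := by
      rw [Finset.sum_const, nsmul_eq_mul, mul_one, Set.ncard_eq_toFinset_card _ hX]
    have e2 : ∑ χ' ∈ hX.toFinset, (1 : ℂ) =
        ∑ χ' ∈ hX.toFinset, ∑ u ∈ C, Su p M (cz P) θ χ' u / (wt M D (cz P) θ u : ℂ) := by
      refine Finset.sum_congr rfl fun χ' hχ' => ?_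
      rw [hQMX p M hM G D x θ χ hL P hPD χ' (hX.mem_toFinset.1 hχ').1, e0]
    rw [e1, e2, Finset.sum_comm]
    refine Finset.sum_congr rfl fun u hu => ?_
    rw [← Finset.sum_div, ← hTRS p M hM G D x θ χ hL P hPD Z hZ l u ((hC u).1 hu),
      finsum_mem_eq_finite_toFinset_sum _ hX]
  have h2 := N3CS_split A B C (fun u hu => (hB u).2 (hZY ((hA u).1 hu))) (fun u hu => (hC u).2 (hYD ((hB u).1 hu)))
    (fun u => ((∑ᶠ ψ ∈ Bl M (Cz (cz P) u) θ, EE p (Cz (cz P) u) ψ ψ) / (Nat.card Z : ℂ)) / (wt M D (cz P) θ u : ℂ))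
    ((lL : ℂ) / Nat.card Z) ((iI M D θ : ℂ) / Nat.card Z) (1 / Nat.card Z / (iI M D θ : ℂ))
    (fun u hu => by
      have hu' := (hA u).1 hu
      show _ / _ / _ = _
      rw [hCz u hu', hsum, hwY u (hZY hu'), Nat.cast_one, div_one])
    (fun u hu hu2 => by
      have hu' := (hB u).1 hu
      show _ / _ / _ = _
      rw [htr u hu' (fun h => hu2 ((hA u).2 h)), hwY u hu', Nat.cast_one, div_one])
    (fun u hu hu2 => by
      have hu' := hDY u ((hC u).1 hu) (fun h => hu2 ((hB u).2 h))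
      show _ / _ / _ = _
      rw [hu'.2, hu'.1])
  rw [h2, hAc, hBc, hCc] at h1
  have h3 : ((iI M D θ * (XL M (cz P) θ Z l).ncard * Nat.card Z : ℕ) : ℂ) =
      ((Nat.card (Zc D (cz P)) * iI M D θ * lL +
      (Nat.card (YY M D θ) - Nat.card (Zc D (cz P))) * iI M D θ ^ 2 +
      (Nat.card D - Nat.card (YY M D θ)) : ℕ) : ℂ) := by
    push_cast
    rw [h1]
    field_simp
  exact_mod_cast h3

end Pool.Agent.FI3
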