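import Pool.Agent.helper58.FI3.SpecF3

/-!
# MP_baa4d7_al, project FI3, row FSQ3: the sum of the squares of the stabilisers
-/

set_option autoImplicit false

namespace Pool.Agent.FI3

open Pool.Agent.helper58.DC Pool.Agent.DI Pool.Agent.GR Pool.Agent.OB Pool.Agent.DR Pool.Agent.FI

theorem FSQ3_one {α : Type} (s : Set α) (hs : s.Finite) (c : ℕ) : ∑ᶠ _i ∈ s, c = s.ncard * c := by
  rw [finsum_mem_eq_finite_toFinset_sum _ hs, Finset.sum_const, smul_eq_mul, Set.ncard_eq_toFinset_card s hs]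

theorem FSQ3_card {G : Type} [Group G] {H K : Subgroup G} (h : H ≤ K) : H.relIndex K * Nat.card H = Nat.card K := by
  have h1 := Subgroup.relIndex_mul_relIndex ⊥ H K bot_le h
  rw [Subgroup.relIndex_bot_left, Subgroup.relIndex_bot_left] at h1
  rw [mul_comm]
  exact h1

theorem FSQ3 (hFIX : FIX3_stmt) (hFXC : FXC3_stmt) (hFCP : FCP3_stmt) (hFRA : FRA3_stmt) (hFEQ : FEQ_stmt) :
    FSQ3_stmt := by
  intro p M hS G _ _ D x θ χ hL Q hQD Z hZQ hZY hSg N hN1 hN2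
  obtain ⟨hcT, hcQ, hDQ, hYT, hnYT⟩ := (hFRA p M hS G D x θ χ hL.lo Q hQD).1
  have hZD : Z ≤ D := hZQ.trans hQD
  have hYD : YY M D θ ≤ D := inf_le_left
  have hZcom : ∀ z ∈ Z, ∀ k ∈ cz Q, k * z = z * k := fun z hz k hk =>
    (Subgroup.mem_centralizer_iff.1 hk z (hZQ hz)).symm
  have hcD : Z.relIndex D * Nat.card Z = Nat.card D := FSQ3_card hZD
  have hcY : Z.relIndex (YY M D θ) * Nat.card Z = Nat.card (YY M D θ) := FSQ3_card hZY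
  have hZpos : 0 < Nat.card Z := Nat.card_pos
  have hDpos : 0 < Nat.card D := Nat.card_pos
  have hle1 : Z.relIndex (YY M D θ) ≤ Z.relIndex D := by
    have h1 : Nat.card (YY M D θ) ≤ Nat.card D := Subgroup.card_le_of_le hYD
    rw [← hcD, ← hcY] at h1
    exact Nat.le_of_mul_le_mul_right h1 hZpos
  have hDi : 0 < Z.relIndex D := by
    rcases Nat.eq_zero_or_pos (Z.relIndex D) with h | h
    · rw [h, zero_mul] at hcD
      omega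
    · exact h
  by_cases hQ : Q ≤ YY M D θ
  · -- second case
    have hTQ : TT M D θ ≤ cz Q := hYT hQ
    have e1 : TT M D θ ⊓ cz Q = TT M D θ := inf_eq_left.2 hTQ
    have e2 : TT M D θ ⊓ N = TT M D θ := inf_eq_left.2 (hTQ.trans hN1)
    have hF := hFCP p M hS G D x θ χ hL.lo Q hQD N hN1 hN2
    have hnum := (hSg hQ).num Z (fun z hz => Zc_mem.2 ⟨hZD hz, fun k hk => ?_⟩) 1
    swap
    · first
        | exact hZcom z hz k hk
        | exact (hZcom z hz k hk).symm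
    have hfin : (XL M (cz Q) θ Z 1).Finite := by
      rcases (XL M (cz Q) θ Z 1).finite_or_infinite with h | h
      · exact h
      · exfalso
        rw [h.ncard, mul_zero] at hnum
        by_cases hi : iI M D θ = 0
        · have h3 : (cz D).relIndex (TT M D θ) * Nat.card (cz D) = Nat.card (TT M D θ) :=
            FSQ3_card hcT
          unfold iI at hi
          rw [hi, zero_mul] at h3
          have h4 : 0 < Nat.card (TT M D θ) := Nat.card_pos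
          omega
        · have h5 : 0 < Z.relIndex (YY M D θ) := by
            rcases Nat.eq_zero_or_pos (Z.relIndex (YY M D θ)) with h | h
            · rw [h, zero_mul] at hcY
              have h6 : 0 < Nat.card (YY M D θ) := Nat.card_pos
              omega
            · exact h
          have h7 : 0 < Z.relIndex (YY M D θ) * iI M D θ ^ 2 := Nat.mul_pos h5 (pow_pos (Nat.pos_of_ne_zero hi) 2)
          omega
    have e3 : ∑ᶠ ψ ∈ XL M (cz Q) θ Z 1, ((cz Q).relIndex (stF N ψ)) ^ 2 = ∑ᶠ ψ ∈ XL M (cz Q) θ Z 1, (1 : ℕ) :=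
      finsum_mem_congr rfl fun ψ hψ => by rw [(hF ψ hψ.1).1 hQ, Subgroup.relIndex_self, one_pow]
    rw [e1, e2, e3, FSQ3_one _ hfin, mul_one]
    have h3 : (cz D).relIndex (TT M D θ) * Nat.card (cz D) = Nat.card (TT M D θ) :=
      FSQ3_card hcT
    have h4 : fZ M D θ Z (TT M D θ) = iI M D θ * (XL M (cz Q) θ Z 1).ncard := by
      rw [hnum]
      unfold fZ iI
      exact Nat.add_comm _ _
    rw [h4, ← h3]
    unfold iI
    ring
  · -- first case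
    have e1 : TT M D θ ⊓ cz Q = cz D := hnYT hQ
    have hgood := hL.good Q hQD hQ
    have hpZ : IsPGroup p Z := hL.lo.rt.dfa.pgrp.to_le hZD
    have hXc := hFXC p M hS G D (cz Q) Z θ hpZ (hZD.trans hDQ) hZcom hgood
    have hcard : (XL M (cz Q) θ Z 1).ncard = Z.relIndex D := by
      rw [← hcD] at hXc
      exact Nat.eq_of_mul_eq_mul_right hZpos hXc
    have hfin : (XL M (cz Q) θ Z 1).Finite := Set.finite_of_ncard_pos (by rw [hcard]; exact hDi)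
    have hne : (XL M (cz Q) θ Z 1).Nonempty := (Set.ncard_pos hfin).1 (by rw [hcard]; exact hDi)
    have hF := fun ψ hψ => (hFCP p M hS G D x θ χ hL.lo Q hQD N hN1 hN2 ψ hψ).2 hQ
    have e0 : ∑ᶠ ψ ∈ XL M (cz Q) θ Z 1, ((cz Q).relIndex (stF N ψ)) ^ 2 =
        ∑ᶠ ψ ∈ XL M (cz Q) θ Z 1, ((cz D).relIndex (stF (TT M D θ ⊓ N) ψ)) ^ 2 :=
      finsum_mem_congr rfl fun ψ hψ => by rw [(hF ψ hψ.1).2.2.1]
    rw [e1, e0]
    congr 1
    have hle : ∀ ψ : G → ℂ, stF (TT M D θ ⊓ N) ψ ≤ TT M D θ ⊓ N := fun ψ y hy => hy.1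
    unfold fZ
    by_cases hT : TT M D θ ⊓ N ≤ cz D
    · have e2 : ∑ᶠ ψ ∈ XL M (cz Q) θ Z 1, ((cz D).relIndex (stF (TT M D θ ⊓ N) ψ)) ^ 2 =
          ∑ᶠ ψ ∈ XL M (cz Q) θ Z 1, (1 : ℕ) :=
        finsum_mem_congr rfl fun ψ _ => by rw [Subgroup.relIndex_eq_one.2 ((hle ψ).trans hT), one_pow]
      rw [e2, FSQ3_one _ hfin, hcard, Subgroup.relIndex_eq_one.2 hT]
      omega
    · obtain ⟨ψ₁, hψ₁⟩ := hne
      obtain ⟨s, hs, hs2⟩ := (hF ψ₁ hψ₁.1).2.2.2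
      have hsc : s ∉ cz D := by
        intro h
        apply hT
        intro y hy
        obtain ⟨k, hk⟩ := hs2 y hy
        have h1 := (cz D).mul_mem ((cz D).inv_mem ((cz D).zpow_mem h k)) hk
        rwa [inv_mul_cancel_left] at h1
      have hsQ : s ∈ nz Q := hN2 hs.2
      have hfix := hFIX p M hS G D x θ χ hL Q hQD hQ Z hZQ hZY s hs.1 hsQ hsc
      -- elements of `cz Q` fix all the characters of `cz Q`
      have hcf : ∀ ψ₀ ∈ XL M (cz Q) θ Z 1, ∀ c ∈ cz Q, cjF c ψ₀ = ψ₀ := by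
        intro ψ₀ hψb c hc
        have h1 : cjF (⟨c, hc⟩ : cz Q) (fun h : cz Q => ψ₀ (h : G)) = fun h : cz Q => ψ₀ (h : G) :=
          ((hFEQ (cz Q) M ⟨c, hc⟩ 1 ⊥ ⊥ ⊥ (fun _ => 0) (fun _ => 0) (fun h : cz Q => ψ₀ (h : G))).2.2.2.2.2.1 hψb.1.1.2).1
        funext y
        rw [cjF_apply]
        by_cases hy : y ∈ cz Q
        · have h2 := congrFun h1 ⟨y, hy⟩
          rw [cjF_apply] at h2
          exact h2
        · rw [hψb.1.1.1 y hy]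
          refine hψb.1.1.1 _ fun h => hy ?_
          have h3 := (cz Q).mul_mem ((cz Q).mul_mem hc h) ((cz Q).inv_mem hc)
          have h4 : c * (c⁻¹ * y * c) * c⁻¹ = y := by group
          rwa [h4] at h3
      have hFT : ∀ ψ₀ ∈ {ψ : G → ℂ | ψ ∈ XL M (cz Q) θ Z 1 ∧ cjF s ψ = ψ}, TT M D θ ⊓ N ≤ stF ⊤ ψ₀ := by
        intro ψ₀ hψ₀ y hy
        obtain ⟨k, hk⟩ := hs2 y hy
        have h1 : s ∈ stF ⊤ ψ₀ := ⟨Subgroup.mem_top s, hψ₀.2⟩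
        have h2 : s ^ k * y ∈ stF ⊤ ψ₀ := ⟨Subgroup.mem_top _, hcf ψ₀ hψ₀.1 _ (hcQ hk)⟩
        have h3 := (stF ⊤ ψ₀).mul_mem ((stF ⊤ ψ₀).inv_mem ((stF ⊤ ψ₀).zpow_mem h1 k)) h2
        rwa [inv_mul_cancel_left] at h3
      have hst0 : ∀ ψ₀ ∈ {ψ : G → ℂ | ψ ∈ XL M (cz Q) θ Z 1 ∧ cjF s ψ = ψ},
          stF (TT M D θ ⊓ N) ψ₀ = TT M D θ ⊓ N := fun ψ₀ hψ₀ =>
        le_antisymm (hle ψ₀) fun y hy => ⟨hy, (hFT ψ₀ hψ₀ hy).2⟩
      have hsub : ∀ t ∈ TT M D θ ⊓ N, t ∉ cz D → ∀ ψ ∈ XL M (cz Q) θ Z 1, cjF t ψ = ψ → cjF s ψ = ψ := by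
        intro t ht htc ψ hψ hψt
        have h1 := hFIX p M hS G D x θ χ hL Q hQD hQ Z hZQ hZY t ht.1 (hN2 ht.2) htc
        have h2 : {ψ : G → ℂ | ψ ∈ XL M (cz Q) θ Z 1 ∧ cjF s ψ = ψ} ⊆
            {ψ : G → ℂ | ψ ∈ XL M (cz Q) θ Z 1 ∧ cjF t ψ = ψ} := fun φ hφ => ⟨hφ.1, (hFT φ hφ ht).2⟩
        have h3 : {ψ : G → ℂ | ψ ∈ XL M (cz Q) θ Z 1 ∧ cjF s ψ = ψ} =
            {ψ : G → ℂ | ψ ∈ XL M (cz Q) θ Z 1 ∧ cjF t ψ = ψ} :=
          Set.eq_of_subset_of_ncard_le h2 (by rw [h1, hfix]) (hfin.subset fun φ hφ => hφ.1)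
        have h4 : ψ ∈ {ψ : G → ℂ | ψ ∈ XL M (cz Q) θ Z 1 ∧ cjF s ψ = ψ} := by
          rw [h3]
          exact ⟨hψ, hψt⟩
        exact h4.2
      have hst1 : ∀ ψ ∈ XL M (cz Q) θ Z 1, cjF s ψ ≠ ψ → stF (TT M D θ ⊓ N) ψ ≤ cz D := by
        intro ψ hψ hne t ht
        by_contra htc
        exact hne (hsub t ht.1 htc ψ hψ ht.2)
      have hsplit : XL M (cz Q) θ Z 1 = {ψ : G → ℂ | ψ ∈ XL M (cz Q) θ Z 1 ∧ cjF s ψ = ψ} ∪
          {ψ : G → ℂ | ψ ∈ XL M (cz Q) θ Z 1 ∧ cjF s ψ ≠ ψ} := by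
        ext ψ
        constructor
        · intro h
          by_cases h1 : cjF s ψ = ψ
          · exact Or.inl ⟨h, h1⟩
          · exact Or.inr ⟨h, h1⟩
        · rintro (h | h)
          · exact h.1
          · exact h.1
      have hdisj : Disjoint {ψ : G → ℂ | ψ ∈ XL M (cz Q) θ Z 1 ∧ cjF s ψ = ψ}
          {ψ : G → ℂ | ψ ∈ XL M (cz Q) θ Z 1 ∧ cjF s ψ ≠ ψ} := by
        rw [Set.disjoint_left]
        exact fun ψ h1 h2 => h2.2 h1.2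
      have hf1 : {ψ : G → ℂ | ψ ∈ XL M (cz Q) θ Z 1 ∧ cjF s ψ = ψ}.Finite := hfin.subset fun φ hφ => hφ.1
      have hf2 : {ψ : G → ℂ | ψ ∈ XL M (cz Q) θ Z 1 ∧ cjF s ψ ≠ ψ}.Finite := hfin.subset fun φ hφ => hφ.1
      have hcd : {ψ : G → ℂ | ψ ∈ XL M (cz Q) θ Z 1 ∧ cjF s ψ = ψ}.ncard +
          {ψ : G → ℂ | ψ ∈ XL M (cz Q) θ Z 1 ∧ cjF s ψ ≠ ψ}.ncard = Z.relIndex D := by
        rw [← Set.ncard_union_eq hdisj hf1 hf2, ← hsplit, hcard]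
      have e3 : ∑ᶠ ψ ∈ {ψ : G → ℂ | ψ ∈ XL M (cz Q) θ Z 1 ∧ cjF s ψ = ψ},
          ((cz D).relIndex (stF (TT M D θ ⊓ N) ψ)) ^ 2 =
          ∑ᶠ ψ ∈ {ψ : G → ℂ | ψ ∈ XL M (cz Q) θ Z 1 ∧ cjF s ψ = ψ}, ((cz D).relIndex (TT M D θ ⊓ N)) ^ 2 :=
        finsum_mem_congr rfl fun ψ hψ => by rw [hst0 ψ hψ]
      have e4 : ∑ᶠ ψ ∈ {ψ : G → ℂ | ψ ∈ XL M (cz Q) θ Z 1 ∧ cjF s ψ ≠ ψ},
          ((cz D).relIndex (stF (TT M D θ ⊓ N) ψ)) ^ 2 =
          ∑ᶠ ψ ∈ {ψ : G → ℂ | ψ ∈ XL M (cz Q) θ Z 1 ∧ cjF s ψ ≠ ψ}, (1 : ℕ) :=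
        finsum_mem_congr rfl fun ψ hψ => by rw [Subgroup.relIndex_eq_one.2 (hst1 ψ hψ.1 hψ.2), one_pow]
      rw [hsplit, finsum_mem_union hdisj hf1 hf2, e3, e4, FSQ3_one _ hf1, FSQ3_one _ hf2, hfix]
      rw [hfix] at hcd
      have h9 : {ψ : G → ℂ | ψ ∈ XL M (cz Q) θ Z 1 ∧ cjF s ψ ≠ ψ}.ncard = Z.relIndex D - Z.relIndex (YY M D θ) := by
        omega
      rw [h9]
      ring

end Pool.Agent.FI3
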